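import Pool.Agent.helper19.MX.SpecA

set_option autoImplicit false

namespace MX

open Pool.Agent.helper53.AU AN
open scoped Classical Topology

section CHO

variable {L M : Type} [Field L] [Field M]

theorem CHO_fb (φ : L →+* M) (h : ℕ) (b : ℕ → L) (x : L) :
    φ (fb h b x) = fb h (fun i => φ (b i)) (φ x) := by
  simp only [fb, map_sum, map_mul, map_pow]

theorem CHO_PP (φ : L →+* M) (h : ℕ) (b : ℕ → L) (x : L) :
    φ (PP h b x) = PP h (fun i => φ (b i)) (φ x) := by
  simp only [PP, map_sum, map_mul, map_pow, map_add]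

theorem CHO_cut (φ : L →+* M) (h : ℕ) (b : ℕ → L) (i : ℕ) :
    φ (cut h b i) = cut h (fun i => φ (b i)) i := by
  unfold cut
  by_cases hi : i ≤ h
  · rw [if_pos hi, if_pos hi]
  · rw [if_neg hi, if_neg hi, map_zero]

theorem CHO_Ud (φ : L →+* M) (h : ℕ) (b : ℕ → L) (d : L) (i : ℕ) :
    φ (Ud h b d i) = Ud h (fun i => φ (b i)) (φ d) i := by
  unfold Ud
  rw [map_add, map_add, map_add, map_mul, map_mul, map_pow, map_pow, map_pow, map_pow, CHO_cut, CHO_cut]
  by_cases hi : 2 ≤ i
  · rw [if_pos hi, if_pos hi, map_mul, map_pow, CHO_cut]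
  · rw [if_neg hi, if_neg hi, map_zero]

end CHO

theorem CHO : CHO_stmt := by
  intro L M _ _ φ θ h b hc
  induction hc with
  | base b v r y hv h1 h0 hy =>
    refine Cert.base _ (φ v) (φ r) (φ y) ((map_ne_zero φ).2 hv) ?_ ?_ ?_
    · rw [h1, map_pow]
    · rw [h0]; simp only [map_mul, map_pow, map_add]
    · have h2 := congrArg φ hy
      simpa only [map_pow, map_add] using h2
  | step h b c d β y hb hd hP hy hc ih =>
    refine Cert.step h (fun i => φ (b i)) _ (φ d) (φ β) (φ y) ih ((map_ne_zero φ).2 hd) ?_ ?_ ?_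
    · rw [← CHO_PP, ← map_pow, ← map_mul, hP, map_one]
    · have h2 := congrArg φ hy
      rw [CHO_fb] at h2
      simpa only [map_pow, map_add] using h2
    · intro i hi
      rw [← CHO_Ud, hc i hi]

end MX
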