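import Pool.Agent.helper19.MX.SpecD

set_option autoImplicit false

namespace MX

open Pool.Agent.helper53.AU AN
open scoped Classical Topology

section QU2

variable {k F : Type} [Field k] [Field F] [Algebra k F]

theorem QU2_one (P : Place k F) : P.ord 1 = 0 := by
  have h := P.ord_const 1 one_ne_zero
  rwa [map_one] at h

theorem QU2_neg (P : Place k F) (a : F) : P.ord (-a) = P.ord a := by
  by_cases ha : a = 0
  · rw [ha, neg_zero]
  · have h1 : P.ord (algebraMap k F (-1)) = 0 := P.ord_const (-1) (by simp)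
    have h2 : -a = algebraMap k F (-1) * a := by simp
    rw [h2, P.ord_mul _ _ (by simp) ha, h1, zero_add]

/-- the strict ultrametric inequality -/
theorem QU2_lt (P : Place k F) (a b : F) (ha : a ≠ 0) (hb : b ≠ 0) (h : P.ord a < P.ord b) :
    a + b ≠ 0 ∧ P.ord (a + b) = P.ord a := by
  have hne : a + b ≠ 0 := by
    intro h0
    have h1 : b = -a := by
      have := eq_neg_of_add_eq_zero_right h0
      exact this
    rw [h1, QU2_neg] at h
    exact lt_irrefl _ h
  refine ⟨hne, ?_⟩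
  have h1 := P.ord_add a b ha hb hne
  rw [min_eq_left h.le] at h1
  have e : (a + b) + -b = a := by ring
  have h2 := P.ord_add (a + b) (-b) hne (neg_ne_zero.2 hb) (by rw [e]; exact ha)
  rw [e, QU2_neg] at h2
  rcases le_total (P.ord (a + b)) (P.ord b) with h3 | h3
  · rw [min_eq_left h3] at h2
    exact le_antisymm h2 h1
  · rw [min_eq_right h3] at h2
    exact absurd h2 (not_le.2 h)

/-- the order of `w (w + 1)` -/
theorem QU2_quad (P : Place k F) (w φ : F) (hw : w ^ 2 + w = φ) (hφ : φ ≠ 0) (hneg : P.ord φ < 0) :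
    w ≠ 0 ∧ P.ord w < 0 ∧ P.ord φ = 2 * P.ord w := by
  have hw0 : w ≠ 0 := by
    rintro rfl
    apply hφ
    rw [← hw]; ring
  have hw1 : w + 1 ≠ 0 := by
    intro h
    apply hφ
    rw [← hw]
    linear_combination w * h
  have e : φ = w * (w + 1) := by rw [← hw]; ring
  have h1 : P.ord φ = P.ord w + P.ord (w + 1) := by
    rw [e, P.ord_mul _ _ hw0 hw1]
  have h2 : P.ord w < 0 := by
    by_contra hcon
    have h3 := P.ord_add w 1 hw0 one_ne_zero hw1
    rw [QU2_one, min_eq_right (not_lt.1 hcon)] at h3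
    omega
  have h3 := (QU2_lt P w 1 hw0 one_ne_zero (by rw [QU2_one]; exact h2)).2
  refine ⟨hw0, h2, ?_⟩
  rw [h1, h3]; ring

end QU2

theorem QU2 (hQEL : QEL_stmt) : QU2_stmt := by
  intro k E F _ _ _ _ _ _ _ _ y φ P m Q Q' e hy hgen hm hφ hP hQ hQy he hQ'
  obtain ⟨m', hm'⟩ := hm
  have hirr : ∀ w : E, w ^ 2 + w ≠ φ := by
    intro w hw
    have h1 := (QU2_quad P w φ hw hφ (by rw [hP]; omega)).2.2
    rw [hP] at h1
    omega
  obtain ⟨-, hrep, -⟩ := hQEL E F y φ hy hgen hirr
  have hinj : Function.Injective (algebraMap E F) := (algebraMap E F).injective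
  have hφF : algebraMap E F φ ≠ 0 := by
    rw [Ne, map_eq_zero]; exact hφ
  have hepos : (0 : ℤ) < e := by exact_mod_cast he
  have hmpos : (0 : ℤ) < m := by omega
  have hQ'φ : Q'.ord (algebraMap E F φ) = e * (-(m : ℤ)) := by rw [hQ', hP]
  obtain ⟨hy0, hyneg, hyord⟩ := QU2_quad Q' y (algebraMap E F φ) hy hφF (by
    rw [hQ'φ]
    nlinarith)
  rw [hQ'φ] at hyord
  -- `e` is even
  obtain ⟨e', he'⟩ : ∃ e' : ℤ, (e : ℤ) = 2 * e' := by
    rcases Int.even_or_odd' (e : ℤ) with ⟨c, hc | hc⟩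
    · exact ⟨c, hc⟩
    · exfalso
      have h1 : (e : ℤ) * (-(m : ℤ)) = 2 * Q'.ord y := hyord
      have h2 : (m : ℤ) = 2 * m' + 1 := by rw [hm']; push_cast; ring
      rw [hc, h2] at h1
      have h3 : (2 * c + 1) * (-(2 * (m' : ℤ) + 1)) = 2 * (-(2 * c * m' + c + m')) - 1 := by ring
      rw [h3] at h1
      omega
  have he'pos : 0 < e' := by omega
  have hyo : Q'.ord y = e' * (-(m : ℤ)) := by
    have h1 : 2 * Q'.ord y = 2 * (e' * (-(m : ℤ))) := by
      rw [← hyord, he']; ring
    omega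
  have hQ'a : ∀ a : E, Q'.ord (algebraMap E F a) = e' * Q.ord (algebraMap E F a) := by
    intro a
    rw [hQ', hQ, he']; ring
  have hQ'b : ∀ b : E, b ≠ 0 → Q'.ord (algebraMap E F b * y) = e' * Q.ord (algebraMap E F b * y) := by
    intro b hb
    have hbF : algebraMap E F b ≠ 0 := by rw [Ne, map_eq_zero]; exact hb
    rw [Q'.ord_mul _ _ hbF hy0, hQ', hyo, hQy b hb, he']; ring
  have hmain : ∀ z : F, Q'.ord z = e' * Q.ord z := by
    intro z
    obtain ⟨a, b, rfl⟩ := hrep z
    by_cases hb : b = 0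
    · rw [hb, map_zero, zero_mul, add_zero]
      exact hQ'a a
    by_cases ha : a = 0
    · rw [ha, map_zero, zero_add]
      exact hQ'b b hb
    have haF : algebraMap E F a ≠ 0 := by rw [Ne, map_eq_zero]; exact ha
    have hbF : algebraMap E F b ≠ 0 := by rw [Ne, map_eq_zero]; exact hb
    have hbyF : algebraMap E F b * y ≠ 0 := mul_ne_zero hbF hy0
    have hne : Q.ord (algebraMap E F a) ≠ Q.ord (algebraMap E F b * y) := by
      rw [hQ, hQy b hb, hm']
      push_cast
      omega
    rcases lt_or_gt_of_ne hne with hlt | hlt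
    · have h1 := (QU2_lt Q _ _ haF hbyF hlt).2
      have hlt' : Q'.ord (algebraMap E F a) < Q'.ord (algebraMap E F b * y) := by
        rw [hQ'a, hQ'b b hb]
        exact mul_lt_mul_of_pos_left hlt he'pos
      have h2 := (QU2_lt Q' _ _ haF hbyF hlt').2
      rw [h1, h2, hQ'a]
    · have h1 := (QU2_lt Q _ _ hbyF haF hlt).2
      have hlt' : Q'.ord (algebraMap E F b * y) < Q'.ord (algebraMap E F a) := by
        rw [hQ'a, hQ'b b hb]
        exact mul_lt_mul_of_pos_left hlt he'pos
      have h2 := (QU2_lt Q' _ _ hbyF haF hlt').2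
      rw [add_comm (algebraMap E F a), h1, h2, hQ'b b hb]
  obtain ⟨t, ht0, ht⟩ := Q'.exists_uniformizer
  have he1 : e' = 1 := by
    rw [hmain t] at ht
    exact Int.eq_one_of_mul_eq_one_right he'pos.le ht
  ext z
  rw [hmain z, he1, one_mul]

end MX
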